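import Pool.Agent.Helper86.QA.St3

/-!
Project QD, part A, module ASV: harmonic measure near `A`.
-/

set_option autoImplicit false

open MeasureTheory Matrix Set Topology
open scoped ENNReal ComplexConjugate

namespace Pool.Agent.Helper79.QA

open Pool.Agent.Helper86.QA Filter

private theorem asv_meas (x : ℂ × ℝ) : Measurable fun η : ℂ => 1 / (‖x.1 - η‖ ^ 2 + x.2 ^ 2) ^ 2 := by
  fun_prop

private theorem asv_hv (B : Set ℂ) (x : Pt) (hx : x ∈ up) :
    hv B x / x.2 ^ 2 = (1 / Real.pi) * ∫ η in B, 1 / (‖x.1 - η‖ ^ 2 + x.2 ^ 2) ^ 2 := by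
  have hx' : x.2 ≠ 0 := ne_of_gt hx
  have h : ∀ η : ℂ, pp x η ^ 2 = x.2 ^ 2 * (1 / (‖x.1 - η‖ ^ 2 + x.2 ^ 2) ^ 2) := by
    intro η
    unfold pp
    rw [div_pow]
    ring
  unfold hv
  simp only [h]
  rw [integral_const_mul]
  field_simp

private theorem asv_aw (B : Set ℂ) (z : ℂ) :
    (aw B z).toReal = ∫ η in B, 1 / ‖z - η‖ ^ 4 := by
  rw [integral_eq_lintegral_of_nonneg_ae]
  · rfl
  · exact Eventually.of_forall fun η => by positivity
  · exact (by fun_prop : Measurable fun η : ℂ => 1 / ‖z - η‖ ^ 4).aestronglyMeasurable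

private theorem asv_int {B : Set ℂ} {z : ℂ} (h : aw B z ≠ ∞) :
    Integrable (fun η : ℂ => 1 / ‖z - η‖ ^ 4) (volume.restrict B) := by
  refine ⟨(by fun_prop : Measurable fun η : ℂ => 1 / ‖z - η‖ ^ 4).aestronglyMeasurable, ?_⟩
  rw [hasFiniteIntegral_iff_ofReal (Eventually.of_forall fun η => by positivity)]
  exact lt_top_iff_ne_top.2 h

private theorem asv_lim {A B : Set ℂ} (hA : IsOpen A) (hB : MeasurableSet B)
    (hdis : Disjoint A B) {z : ℂ} (hz : z ∈ A) (haw : aw B z ≠ ∞) :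
    Tendsto (fun x : Pt => hv B x / x.2 ^ 2) (𝓝[up] (z, 0)) (𝓝 ((aw B z).toReal / Real.pi)) := by
  obtain ⟨r, hr, hrA⟩ := Metric.isOpen_iff.1 hA z hz
  have hfar : ∀ η ∈ B, r ≤ ‖z - η‖ := by
    intro η hη
    by_contra hcon
    push Not at hcon
    apply Set.disjoint_left.1 hdis (hrA _) hη
    rw [Metric.mem_ball, dist_comm, dist_eq_norm]
    exact hcon
  have hmain : Tendsto (fun x : Pt => ∫ η in B, 1 / (‖x.1 - η‖ ^ 2 + x.2 ^ 2) ^ 2)
      (𝓝[up] (z, 0)) (𝓝 (∫ η in B, 1 / ‖z - η‖ ^ 4)) := by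
    refine tendsto_integral_filter_of_dominated_convergence
      (fun η => 16 * (1 / ‖z - η‖ ^ 4)) ?_ ?_ ((asv_int haw).const_mul 16) ?_
    · exact Eventually.of_forall fun x => (asv_meas x).aestronglyMeasurable
    · have hev : ∀ᶠ x : Pt in 𝓝[up] (z, 0), ‖x.1 - z‖ < r / 2 := by
        have hc : ContinuousAt (fun x : Pt => ‖x.1 - z‖) (z, 0) := by fun_prop
        have h1 : Tendsto (fun x : Pt => ‖x.1 - z‖) (𝓝[up] (z, 0)) (𝓝 0) := by
          have := hc.tendsto.mono_left (nhdsWithin_le_nhds (s := up))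
          simpa using this
        exact h1.eventually (gt_mem_nhds (by positivity))
      filter_upwards [hev] with x hx
      refine (ae_restrict_iff' hB).2 (Eventually.of_forall fun η hη => ?_)
      have h1 := hfar η hη
      have h0 : 0 < ‖z - η‖ := hr.trans_le h1
      have h2 : ‖z - η‖ ≤ ‖x.1 - z‖ + ‖x.1 - η‖ := by
        have h3 : z - η = -(x.1 - z) + (x.1 - η) := by ring
        calc ‖z - η‖ = ‖-(x.1 - z) + (x.1 - η)‖ := by rw [← h3]
          _ ≤ ‖-(x.1 - z)‖ + ‖x.1 - η‖ := norm_add_le _ _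
          _ = ‖x.1 - z‖ + ‖x.1 - η‖ := by rw [norm_neg]
      have h4 : ‖z - η‖ / 2 ≤ ‖x.1 - η‖ := by linarith
      have h5 : (‖z - η‖ / 2) ^ 2 ≤ ‖x.1 - η‖ ^ 2 + x.2 ^ 2 := by
        have h6 : (‖z - η‖ / 2) ^ 2 ≤ ‖x.1 - η‖ ^ 2 := by gcongr
        nlinarith [sq_nonneg x.2]
      rw [Real.norm_of_nonneg (by positivity)]
      have h7 : 1 / (‖x.1 - η‖ ^ 2 + x.2 ^ 2) ^ 2 ≤ 1 / ((‖z - η‖ / 2) ^ 2) ^ 2 := by
        apply one_div_le_one_div_of_le (by positivity)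
        gcongr
      refine h7.trans (le_of_eq ?_)
      field_simp
      norm_num
    · refine (ae_restrict_iff' hB).2 (Eventually.of_forall fun η hη => ?_)
      have h1 := hfar η hη
      have h0 : 0 < ‖z - η‖ := hr.trans_le h1
      have hc : ContinuousAt (fun x : Pt => 1 / (‖x.1 - η‖ ^ 2 + x.2 ^ 2) ^ 2) (z, 0) := by
        apply ContinuousAt.div
        · fun_prop
        · fun_prop
        · simp only
          positivity
      have h2 := hc.tendsto.mono_left (nhdsWithin_le_nhds (s := up))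
      have h3 : 1 / (‖(z, (0 : ℝ)).1 - η‖ ^ 2 + (z, (0 : ℝ)).2 ^ 2) ^ 2 = 1 / ‖z - η‖ ^ 4 := by
        simp only
        ring
      rw [h3] at h2
      exact h2
  have h1 : Tendsto (fun x : Pt => (1 / Real.pi) * ∫ η in B, 1 / (‖x.1 - η‖ ^ 2 + x.2 ^ 2) ^ 2)
      (𝓝[up] (z, 0)) (𝓝 ((1 / Real.pi) * ∫ η in B, 1 / ‖z - η‖ ^ 4)) := hmain.const_mul _
  rw [← asv_aw, one_div_mul_eq_div] at h1
  refine h1.congr' ?_
  filter_upwards [self_mem_nhdsWithin] with x hx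
  exact (asv_hv B x hx).symm

private theorem asv_low {B : Set ℂ} (hBm : MeasurableSet B) (hBo : IsOpen B) (hBn : B.Nonempty)
    (hi : ∀ x : Pt, x ∈ up → IntegrableOn (fun ξ => pp x ξ ^ 2) B) (R T : ℝ) (hR : 0 ≤ R) :
    ∃ c > 0, ∀ z : ℂ, ‖z‖ ≤ R → ∀ t : ℝ, 0 < t → t ≤ T → c * t ^ 2 ≤ hv B (z, t) := by
  obtain ⟨b, hb⟩ := hBn
  obtain ⟨r, hr, hrB⟩ := Metric.nhds_basis_closedBall.mem_iff.1 (hBo.mem_nhds hb)
  obtain ⟨M, hM⟩ : ∃ M : ℝ, M = (R + ‖b‖ + r) ^ 2 + T ^ 2 := ⟨_, rfl⟩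
  have hM0 : 0 < M := by
    rw [hM]
    have : 0 < R + ‖b‖ + r := by positivity
    positivity
  obtain ⟨v, hv0⟩ : ∃ v : ℝ, v = volume.real (Metric.closedBall b r) := ⟨_, rfl⟩
  have hvpos : 0 < v := by
    rw [hv0]
    exact ENNReal.toReal_pos (Metric.measure_closedBall_pos volume b hr).ne'
      measure_closedBall_lt_top.ne
  refine ⟨v / (Real.pi * M ^ 2), by positivity, ?_⟩
  intro z hz t ht htT
  have hup : ((z, t) : Pt) ∈ up := ht
  have h1 : ∫ ξ in Metric.closedBall b r, (t / M) ^ 2 ≤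
      ∫ ξ in Metric.closedBall b r, pp (z, t) ξ ^ 2 := by
    refine setIntegral_mono_on ?_ ((hi _ hup).mono_set hrB) measurableSet_closedBall ?_
    · exact integrableOn_const measure_closedBall_lt_top.ne
    · intro ξ hξ
      have h2 : ‖ξ - b‖ ≤ r := by rwa [Metric.mem_closedBall, dist_eq_norm] at hξ
      have h3 : ‖z - ξ‖ ≤ R + ‖b‖ + r := by
        have h4 : z - ξ = z + (-b) + (-(ξ - b)) := by ring
        calc ‖z - ξ‖ = ‖z + (-b) + (-(ξ - b))‖ := by rw [← h4]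
          _ ≤ ‖z‖ + ‖-b‖ + ‖-(ξ - b)‖ := norm_add₃_le
          _ = ‖z‖ + ‖b‖ + ‖ξ - b‖ := by rw [norm_neg, norm_neg]
          _ ≤ R + ‖b‖ + r := by linarith
      have h5 : ‖z - ξ‖ ^ 2 + t ^ 2 ≤ M := by
        rw [hM]
        gcongr
      have h6 : 0 < ‖z - ξ‖ ^ 2 + t ^ 2 := by positivity
      have h7 : t / M ≤ pp (z, t) ξ := by
        unfold pp
        exact div_le_div_of_nonneg_left ht.le h6 h5
      exact pow_le_pow_left₀ (by positivity) h7 2
  have h2 : ∫ ξ in Metric.closedBall b r, pp (z, t) ξ ^ 2 ≤ ∫ ξ in B, pp (z, t) ξ ^ 2 := by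
    refine setIntegral_mono_set (hi _ hup) (Eventually.of_forall fun ξ => ?_)
      (HasSubset.Subset.eventuallyLE hrB)
    exact sq_nonneg (pp (z, t) ξ)
  rw [setIntegral_const, ← hv0, smul_eq_mul] at h1
  have h3 : v * (t / M) ^ 2 ≤ ∫ ξ in B, pp (z, t) ξ ^ 2 := h1.trans h2
  unfold hv
  calc v / (Real.pi * M ^ 2) * t ^ 2 = 1 / Real.pi * (v * (t / M) ^ 2) := by
        field_simp
    _ ≤ 1 / Real.pi * ∫ ξ in B, pp (z, t) ξ ^ 2 := by
        gcongr

theorem hASV (hHME : StHME) (hAWB : StAWB) : StASV := by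
  intro Γ _ ρ A B hKD
  obtain ⟨-, hcont, hfin, -⟩ := hAWB Γ ρ A B hKD
  have hBm : MeasurableSet B := hKD.opB.measurableSet
  refine ⟨?_, fun z hz => asv_lim hKD.opA hBm hKD.dis hz (hfin z hz).1⟩
  intro K T hK hKA
  obtain ⟨R, hR⟩ := hK.isBounded.exists_norm_le
  obtain ⟨c, hc, hlow⟩ := asv_low hBm hKD.opB hKD.neB
    (fun x hx => (hHME.1 B x hBm hx).1) (max R 0) T (le_max_right _ _)
  obtain ⟨C, hC⟩ := hK.exists_bound_of_continuousOn (hcont.mono hKA)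
  refine ⟨c, hc, |C| / Real.pi + 1, by positivity, ?_⟩
  intro z hz t ht htT
  have hup : ((z, t) : Pt) ∈ up := ht
  refine ⟨hlow z ((hR z hz).trans (le_max_left _ _)) t ht htT, ?_⟩
  have h1 := hHME.2.2.2.2.2.2.1 B (z, t) hBm hup (hfin z (hKA hz)).1
  have h2 := hC z hz
  rw [Real.norm_eq_abs] at h2
  have h3 : (aw B z).toReal ≤ |C| := (le_abs_self _).trans (h2.trans (le_abs_self C))
  have h4 : (aw B z).toReal / Real.pi ≤ |C| / Real.pi + 1 := by
    have : (aw B z).toReal / Real.pi ≤ |C| / Real.pi := by gcongr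
    linarith
  calc hv B (z, t) ≤ t ^ 2 * ((aw B z).toReal / Real.pi) := h1
    _ ≤ t ^ 2 * (|C| / Real.pi + 1) := by gcongr
    _ = (|C| / Real.pi + 1) * t ^ 2 := mul_comm _ _

end Pool.Agent.Helper79.QA
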