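import Pool.Agent.Helper86.QA.St1

/-!
Project QD, part A, module POI: the Poisson kernel.
-/

set_option autoImplicit false

open MeasureTheory Matrix Set Topology
open scoped ENNReal ComplexConjugate

namespace Pool.Agent.Helper79.QA

open Pool.Agent.Helper86.QA

private theorem poi_den (ξ : ℂ) (x : Pt) : den (gi ξ) x = ‖x.1 - ξ‖ ^ 2 + x.2 ^ 2 := by
  simp [den, gi, sub_eq_add_neg]

private theorem poi_gi (ξ : ℂ) (x : Pt) : (ga (gi ξ) x).2 = pp x ξ := by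
  change x.2 / den (gi ξ) x = pp x ξ
  rw [poi_den, pp]

private theorem poi_pos (ξ : ℂ) {x : Pt} (hx : x ∈ up) : 0 < pp x ξ := by
  have hx' : 0 < x.2 := hx
  unfold pp
  positivity

private theorem poi_mul0 (m : ℂ) (g : SL) : (gi m * g) 1 0 = g 0 0 - m * g 1 0 := by
  simp [gi, Matrix.mul_apply, Fin.sum_univ_two, sub_eq_add_neg]

private theorem poi_mul1 (m : ℂ) (g : SL) : (gi m * g) 1 1 = g 0 1 - m * g 1 1 := by
  simp [gi, Matrix.mul_apply, Fin.sum_univ_two, sub_eq_add_neg]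

private theorem poi_det (g : SL) : g 0 0 * g 1 1 - g 0 1 * g 1 0 = 1 := by
  have h := g.det_coe
  rwa [Matrix.det_fin_two] at h

private theorem poi_den_mb (g : SL) (x : Pt) (ξ : ℂ) (h : g 1 0 * ξ + g 1 1 ≠ 0) :
    den (gi (mb g ξ) * g) x = (‖x.1 - ξ‖ ^ 2 + x.2 ^ 2) / ‖g 1 0 * ξ + g 1 1‖ ^ 2 := by
  have hd := poi_det g
  obtain ⟨w, hw⟩ : ∃ w : ℂ, w = g 1 0 * ξ + g 1 1 := ⟨_, rfl⟩
  have hw0 : w ≠ 0 := by rw [hw]; exact h
  have hm : mb g ξ = (g 0 0 * ξ + g 0 1) / w := by rw [hw]; rfl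
  have h0 : (gi (mb g ξ) * g) 1 0 = 1 / w := by
    rw [poi_mul0, hm]
    field_simp
    rw [hw]
    linear_combination hd
  have h1 : (gi (mb g ξ) * g) 1 1 = -ξ / w := by
    rw [poi_mul1, hm]
    field_simp
    rw [hw]
    linear_combination (-ξ) * hd
  have hn : ‖w‖ ≠ 0 := norm_ne_zero_iff.2 hw0
  unfold den
  rw [h0, h1, ← hw]
  have h2 : 1 / w * x.1 + -ξ / w = (x.1 - ξ) / w := by
    field_simp
    ring
  rw [h2, norm_div, norm_div, norm_one]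
  field_simp

private theorem poi_mb (hACT : StACT) (g : SL) {x : Pt} (ξ : ℂ) (hx : x ∈ up)
    (h : g 1 0 * ξ + g 1 1 ≠ 0) :
    pp (ga g x) (mb g ξ) = pp x ξ * ‖g 1 0 * ξ + g 1 1‖ ^ 2 := by
  have hx' : 0 < x.2 := hx
  have hn : ‖g 1 0 * ξ + g 1 1‖ ≠ 0 := norm_ne_zero_iff.2 h
  rw [← poi_gi, ← hACT.2.1 _ _ x hx]
  change x.2 / den (gi (mb g ξ) * g) x = _
  rw [poi_den_mb g x ξ h, pp]
  have h2 : ‖x.1 - ξ‖ ^ 2 + x.2 ^ 2 ≠ 0 := by positivity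
  field_simp

theorem hPOI (hACT : StACT) (hCHI : StCHI) (hALP : StALP) : StPOI := by
  refine ⟨fun g x ξ hx h => poi_mb hACT g ξ hx h, fun ξ x hx => ⟨poi_gi ξ x, poi_pos ξ hx⟩,
    ?_, ?_, ?_⟩
  · intro x hx y hy ξ h
    have h1 := (hACT.1 (gi ξ) x hx).2.1
    have h2 := (hACT.1 (gi ξ) y hy).2.1
    have h3 := (hCHI.2.1 (gi ξ) x hx y hy).1
    have h4 := (hCHI.2.2.2.1 _ h1 _ h2 (by rw [h3]; exact h)).1
    rwa [poi_gi, poi_gi] at h4
  · intro ξ x hx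
    have h := hALP.2.1 2 (gi ξ) x hx
    rw [hALP.2.2.2.1] at h
    simp only [Real.rpow_two, poi_gi] at h
    exact h
  · intro ξ x hx
    have hx' : 0 < x.2 := hx
    unfold pp
    rw [div_le_div_iff₀ (by positivity) hx']
    nlinarith [sq_nonneg ‖x.1 - ξ‖]

end Pool.Agent.Helper79.QA
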